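import Pool.Agent.W353.EF.Defs
import Pool.Agent.TH941.Newform
import Mathlib.Data.Finsupp.Basic

/-!
# Products with varieties whose first cohomology is modular: definitions

`Y` and `Z` are projective varieties over a number field `K`.  By the theorem of Künneth `H²(Y × Z)` is
the sum of `H²(Y)`, `H²(Z)` and `H¹(Y) ⊗ H¹(Z)`.
-/

set_option autoImplicit false

namespace Pool.Agent.K7.H53.MV

open NumberField IsDedekindDomain Filter Topology Polynomial CongruenceSubgroup
open scoped MatrixGroups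

/-- A family of different normalised cusp forms `f_k` of weight two on `Γ₀(N_k)` with the properties of
newforms: real Fourier coefficients `c(n)`, `c(1) = 1`, the Hecke relations `c(m n) = c(m) c(n)` for
coprime `m, n` and `c(p^{j+2}) = c(p) c(p^{j+1}) - p c(p^j)` (without the last term if `p ∣ N_k`), the
bounds `|c(p)| ≤ 2 √p` for `p ∤ N_k` and `|c(p)| ≤ 1` for `p ∣ N_k` (`Hecke`); and for `k ≠ l` the
eigenvalues at some prime that divides neither `N_k` nor `N_l` are different.  An example is the family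
of all newforms of weight two of all levels, with trivial character. -/
structure Eigenforms (κ : Type) where
  N : κ → ℕ
  pos : ∀ k, NeZero (N k)
  f : ∀ k, CuspForm (Gamma0 (N k) : Subgroup (GL (Fin 2) ℝ)) 2
  hecke : ∀ k, Pool.Agent.TH941.Hecke (f k)
  ne : ∀ k l, k ≠ l → ∃ p : ℕ, p.Prime ∧ ¬ p ∣ N k ∧ ¬ p ∣ N l ∧
    Pool.Agent.W165.RS.ac (f k) p ≠ Pool.Agent.W165.RS.ac (f l) p

section
variable {K : Type} [Field K] [NumberField K] {n n' : ℕ} {κ : Type}

/-- `H¹(Z)` is the sum of `μ k` copies of the (restrictions to `K` of the) two-dimensional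
representations of the eigenforms `f_k`, `k ∈ κ`: at almost all primes `v` of `K` whose norm is a prime
number `p`, the trace of Frobenius on `H¹(Z)` is `∑ μ(k) c_k(p)`.  `Z` is the variety over `K` of
dimension `e` given by the equations `W`, with first Betti number `g₁`.  For example, if `Z` is the
modular curve `X₀(N)`, then `μ(f)` is the number of the divisors of `N / M` for a newform `f` of level
`M ∣ N`, and `0` for the newforms of the other levels. -/
def IsModular (F : Eigenforms κ) (W : Set (MvPolynomial (Fin n) (𝓞 K))) (e g₁ : ℕ)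
    (μ : κ →₀ ℕ) : Prop :=
  ∀ᶠ v : HeightOneSpectrum (𝓞 K) in cofinite, (Ideal.absNorm v.asIdeal).Prime →
    ∃ β : Fin g₁ → ℂ, Pool.Agent.W353.EF.IsFrobenius W e 1 v β ∧
      ∑ j, β j = ∑ k ∈ μ.support,
        (μ k : ℂ) * Pool.Agent.W165.RS.ac (F.f k) (Ideal.absNorm v.asIdeal)

/-- The polynomials `B v` are the Euler factors of `L₂(s, Y × Z) = L(H²(Y × Z), s)`, where `Y` and `Z`
are the varieties over `K` of dimensions `d` and `e` given by the equations `X` and `W`, with first and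
second Betti numbers `b₁`, `b₂` and `g₁`, `g₂`.  For almost all `v`, if `α_i`, `γ_i` are the eigenvalues
of Frobenius at `v` on `H¹(Y)`, `H²(Y)`, and `β_j`, `δ_j` those on `H¹(Z)`, `H²(Z)`, then
`B_v(z) = ∏ (1 - γ_i z) ∏ (1 - δ_j z) ∏ (1 - α_i β_j z)`.
At the other primes `B v` is an arbitrary polynomial, and no factor `1 / B_v(q_v^{-s})` has a pole
at `s = 2`. -/
def IsProductSystem (X : Set (MvPolynomial (Fin n) (𝓞 K))) (d b₁ b₂ : ℕ)
    (W : Set (MvPolynomial (Fin n') (𝓞 K))) (e g₁ g₂ : ℕ)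
    (B : HeightOneSpectrum (𝓞 K) → ℂ[X]) : Prop :=
  (∀ᶠ v in cofinite, ∃ (α : Fin b₁ → ℂ) (γ : Fin b₂ → ℂ) (β : Fin g₁ → ℂ) (δ : Fin g₂ → ℂ),
    Pool.Agent.W353.EF.IsFrobenius X d 1 v α ∧ Pool.Agent.W353.EF.IsFrobenius X d 2 v γ ∧
    Pool.Agent.W353.EF.IsFrobenius W e 1 v β ∧ Pool.Agent.W353.EF.IsFrobenius W e 2 v δ ∧
    ∀ z : ℂ, (B v).eval z = (∏ i, (1 - γ i * z)) * (∏ j, (1 - δ j * z)) *
      ∏ i, ∏ j, (1 - α i * β j * z)) ∧
  ∀ v, (B v).eval ((Ideal.absNorm v.asIdeal : ℂ) ^ (-(((2 : ℕ) : ℂ) / 2 + 1))) ≠ 0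

end

/-- A projective variety over `K` of dimension `e ≥ 1`, given by the equations `W` in projective space
of dimension `n - 1`, with first and second Betti numbers `g₁` and `g₂`. -/
structure Var (K : Type) [Field K] [NumberField K] where
  n : ℕ
  W : Set (MvPolynomial (Fin n) (𝓞 K))
  e : ℕ
  he : 1 ≤ e
  g₁ : ℕ
  g₂ : ℕ

/-- The bounds for a function `y` on the eigenforms: `∑ (y_k⁺)² ≤ R` and `∑ (y_k⁻)² ≤ R`, for the
positive and the negative parts of the values. -/
def Bounded {κ : Type} (y : κ → ℝ) (R : ℝ) : Prop :=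
  ∀ J : Finset κ, ∑ k ∈ J, (max (y k) 0) ^ 2 ≤ R ∧ ∑ k ∈ J, (max (-y k) 0) ^ 2 ≤ R

end Pool.Agent.K7.H53.MV
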