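import Pool.Agent.K7.H53.MV.Defs
import Pool.Agent.Y722.EP.Main

/-! The size of the `L`-function of the second cohomology of a product of two varieties. -/

set_option autoImplicit false

namespace Pool.Agent.K7.H53.MV

open Complex Filter Topology NumberField IsDedekindDomain Polynomial
open Pool.Agent.W540.BE Pool.Agent.W353.L1 Pool.Agent.W401.Cheb
open Pool.Agent.H341R2 (lam lam_tendsto)
open Pool.Agent.W353.PV (Eig alp tF pick_spec)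
open Pool.Agent.W353.EF (IsFrobenius LFun size HasOrder IsEulerSystem)
open Pool.Agent.Y722.EP (size_plain EP_fin prod_unique eig_of nm_w nm_h half_two)

section
variable {K : Type} [Field K] [NumberField K] {n n' : ℕ} {X : Set (MvPolynomial (Fin n) (𝓞 K))}
  {d b₁ b₂ : ℕ} {W : Set (MvPolynomial (Fin n') (𝓞 K))} {e g₁ g₂ : ℕ}

/-- the eigenvalues on `H²(Y × Z)` -/
noncomputable def de (X : Set (MvPolynomial (Fin n) (𝓞 K))) (d b₁ b₂ : ℕ)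
    (W : Set (MvPolynomial (Fin n') (𝓞 K))) (e g₁ g₂ : ℕ)
    (v : HeightOneSpectrum (𝓞 K)) : Fin ((b₂ + g₂) + b₁ * g₁) → ℂ :=
  Fin.append (Fin.append (alp X d 2 b₂ K v) (alp W e 2 g₂ K v))
    fun j => alp X d 1 b₁ K v (finProdFinEquiv.symm j).1 *
      alp W e 1 g₁ K v (finProdFinEquiv.symm j).2

theorem de_prod (v : HeightOneSpectrum (𝓞 K)) (F : ℂ → ℂ) :
    ∏ j, F (de X d b₁ b₂ W e g₁ g₂ v j) = (∏ j, F (alp X d 2 b₂ K v j)) *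
      (∏ j, F (alp W e 2 g₂ K v j)) *
        ∏ i, ∏ j, F (alp X d 1 b₁ K v i * alp W e 1 g₁ K v j) := by
  unfold de
  rw [Fin.prod_univ_add, Fin.prod_univ_add]
  simp only [Fin.append_left, Fin.append_right]
  congr 1
  rw [← Fintype.prod_prod_type']
  exact Fintype.prod_equiv finProdFinEquiv.symm _ _ fun j => rfl

theorem de_sum (v : HeightOneSpectrum (𝓞 K)) :
    ∑ j, de X d b₁ b₂ W e g₁ g₂ v j = (∑ j, alp X d 2 b₂ K v j) + (∑ j, alp W e 2 g₂ K v j) +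
      (∑ j, alp X d 1 b₁ K v j) * ∑ j, alp W e 1 g₁ K v j := by
  unfold de
  rw [Fin.sum_univ_add, Fin.sum_univ_add]
  simp only [Fin.append_left, Fin.append_right]
  congr 1
  rw [Finset.sum_mul_sum, ← Fintype.sum_prod_type']
  exact Fintype.sum_equiv finProdFinEquiv.symm _ _ fun j => rfl

theorem de_all (v : HeightOneSpectrum (𝓞 K)) {P : ℂ → Prop}
    (h1 : ∀ j, P (alp X d 2 b₂ K v j)) (h2 : ∀ j, P (alp W e 2 g₂ K v j))
    (h3 : ∀ i j, P (alp X d 1 b₁ K v i * alp W e 1 g₁ K v j))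
    (j : Fin ((b₂ + g₂) + b₁ * g₁)) : P (de X d b₁ b₂ W e g₁ g₂ v j) := by
  unfold de
  refine Fin.addCases (fun j => ?_) (fun j => ?_) j
  · rw [Fin.append_left]
    refine Fin.addCases (fun j => ?_) (fun j => ?_) j
    · rw [Fin.append_left]; exact h1 j
    · rw [Fin.append_right]; exact h2 j
  · rw [Fin.append_right]
    exact h3 _ _

/-- good primes -/
structure Good (X : Set (MvPolynomial (Fin n) (𝓞 K))) (d b₁ b₂ : ℕ)
    (W : Set (MvPolynomial (Fin n') (𝓞 K))) (e g₁ g₂ : ℕ)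
    (v : HeightOneSpectrum (𝓞 K)) : Prop where
  one : Eig X d 1 v (alp X d 1 b₁ K v)
  two : Eig X d 2 v (alp X d 2 b₂ K v)
  one' : Eig W e 1 v (alp W e 1 g₁ K v)
  two' : Eig W e 2 v (alp W e 2 g₂ K v)

theorem Good.norm {v : HeightOneSpectrum (𝓞 K)} (hg : Good X d b₁ b₂ W e g₁ g₂ v)
    (j : Fin ((b₂ + g₂) + b₁ * g₁)) :
    ‖de X d b₁ b₂ W e g₁ g₂ v j‖ = (nm K v : ℝ) ^ (((2 : ℕ) : ℝ) / 2) := by
  have hss : Real.sqrt (nm K v) * Real.sqrt (nm K v) = nm K v :=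
    Real.mul_self_sqrt (Nat.cast_nonneg _)
  refine de_all (P := fun z => ‖z‖ = (nm K v : ℝ) ^ (((2 : ℕ) : ℝ) / 2)) v
    (fun j => hg.two.norm j) (fun j => hg.two'.norm j) (fun i j => ?_) j
  have h1 : ‖alp X d 1 b₁ K v i‖ = (nm K v : ℝ) ^ (((1 : ℕ) : ℝ) / 2) := hg.one.norm i
  have h2 : ‖alp W e 1 g₁ K v j‖ = (nm K v : ℝ) ^ (((1 : ℕ) : ℝ) / 2) := hg.one'.norm j
  rw [norm_mul, h1, h2, nm_w, nm_h, hss]

theorem Good.im (hd : 1 ≤ d) (he : 1 ≤ e) {v : HeightOneSpectrum (𝓞 K)}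
    (hg : Good X d b₁ b₂ W e g₁ g₂ v) : (∑ j, de X d b₁ b₂ W e g₁ g₂ v j).im = 0 := by
  rw [de_sum, Complex.add_im, Complex.add_im, hg.two.im (by omega), hg.two'.im (by omega),
    Complex.mul_im, hg.one.im (by omega), hg.one'.im (by omega)]
  ring

/-- the decomposition of the trace -/
theorem Good.trace (hd : 1 ≤ d) (he : 1 ≤ e) {v : HeightOneSpectrum (𝓞 K)}
    (hg : Good X d b₁ b₂ W e g₁ g₂ v) :
    tr (((2 : ℕ) : ℝ) / 2) (de X d b₁ b₂ W e g₁ g₂) v =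
      tF X d 2 b₂ K v + tF W e 2 g₂ K v + tF X d 1 b₁ K v * tF W e 1 g₁ K v := by
  have hq : (0 : ℝ) < nm K v := by
    have := two_le_nm v
    exact_mod_cast (by omega : 0 < nm K v)
  have hss : Real.sqrt (nm K v) * Real.sqrt (nm K v) = nm K v :=
    Real.mul_self_sqrt hq.le
  unfold tF tr
  rw [if_pos ⟨hg.norm, hg.im hd he⟩, if_pos ⟨fun j => hg.two.norm j, hg.two.im (by omega)⟩,
    if_pos ⟨fun j => hg.two'.norm j, hg.two'.im (by omega)⟩,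
    if_pos ⟨fun j => hg.one.norm j, hg.one.im (by omega)⟩,
    if_pos ⟨fun j => hg.one'.norm j, hg.one'.im (by omega)⟩, Real.rpow_neg hq.le,
    Real.rpow_neg hq.le, nm_w, nm_h, de_sum, Complex.add_re, Complex.add_re,
    Complex.mul_re, hg.one.im (by omega), zero_mul, sub_zero]
  rw [show ((nm K v : ℝ))⁻¹ = (Real.sqrt (nm K v))⁻¹ * (Real.sqrt (nm K v))⁻¹ by
    rw [← mul_inv, hss]]
  ring

/-- **The size of `L(H¹(Y) ⊗ H¹(Z))`.** -/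
theorem link (hd : 1 ≤ d) (he : 1 ≤ e) {B₀ D B : HeightOneSpectrum (𝓞 K) → ℂ[X]}
    (h₀ : IsEulerSystem X d 2 b₂ B₀) (hD : IsEulerSystem W e 2 g₂ D)
    (hB : IsProductSystem X d b₁ b₂ W e g₁ g₂ B) :
    (∀ᶠ ε : ℝ in 𝓝[>] 0, LFun B (((2 : ℕ) : ℂ) / 2 + 1 + ε) ≠ 0) ∧
    (∀ᶠ ε : ℝ in 𝓝[>] 0, LFun B₀ (((2 : ℕ) : ℂ) / 2 + 1 + ε) ≠ 0) ∧
    (∀ᶠ ε : ℝ in 𝓝[>] 0, LFun D (((2 : ℕ) : ℂ) / 2 + 1 + ε) ≠ 0) ∧
    Tendsto (fun ε : ℝ => (EP (nm K) ε fun v => tF X d 1 b₁ K v * tF W e 1 g₁ K v) / lam ε -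
      (size 2 B ε - size 2 B₀ ε - size 2 D ε)) (𝓝[>] 0) (𝓝 0) := by
  -- the good primes
  have hg : ∀ᶠ v in cofinite, Good X d b₁ b₂ W e g₁ g₂ v ∧ ∀ z : ℂ,
      (B v).eval z = ∏ j, (1 - de X d b₁ b₂ W e g₁ g₂ v j * z) := by
    filter_upwards [hB.1] with v hv
    obtain ⟨α, γ, β, δ, h3, h4, h5, h6, h7⟩ := hv
    have g1 : Eig X d 1 v (alp X d 1 b₁ K v) := pick_spec ⟨α, h3⟩
    have g2 : Eig X d 2 v (alp X d 2 b₂ K v) := pick_spec ⟨γ, h4⟩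
    have g3 : Eig W e 1 v (alp W e 1 g₁ K v) := pick_spec ⟨β, h5⟩
    have g4 : Eig W e 2 v (alp W e 2 g₂ K v) := pick_spec ⟨δ, h6⟩
    refine ⟨⟨g1, g2, g3, g4⟩, fun z => ?_⟩
    have e1 := prod_unique (i := 1) (by omega) (eig_of h3) fun y =>
      ∏ j, (1 - y * β j * z)
    have e2 := prod_unique (i := 2) (by omega) (eig_of h4) fun y => (1 - y * z)
    have e3 := prod_unique (i := 2) (by omega) (eig_of h6) fun y => (1 - y * z)
    have e4 : ∀ y : ℂ, ∏ j, (1 - y * β j * z) = ∏ j, (1 - y * alp W e 1 g₁ K v j * z) :=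
      fun y => prod_unique (i := 1) (by omega) (eig_of h5) fun w => (1 - y * w * z)
    rw [h7 z, e1, e2, e3, de_prod v fun y => 1 - y * z]
    congr 1
    exact Finset.prod_congr rfl fun i _ => e4 _
  have hg0 : ∀ᶠ v in cofinite, Eig X d 2 v (alp X d 2 b₂ K v) ∧
      ∀ z : ℂ, (B₀ v).eval z = ∏ j, (1 - alp X d 2 b₂ K v j * z) := by
    refine h₀.1.mono fun v hv => ?_
    obtain ⟨γ, h1, h2⟩ := hv
    refine ⟨pick_spec ⟨γ, h1⟩, fun z => ?_⟩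
    rw [h2 z]
    exact prod_unique (i := 2) (by omega) (eig_of h1) fun y => (1 - y * z)
  have hgD : ∀ᶠ v in cofinite, Eig W e 2 v (alp W e 2 g₂ K v) ∧
      ∀ z : ℂ, (D v).eval z = ∏ j, (1 - alp W e 2 g₂ K v j * z) := by
    refine hD.1.mono fun v hv => ?_
    obtain ⟨γ, h1, h2⟩ := hv
    refine ⟨pick_spec ⟨γ, h1⟩, fun z => ?_⟩
    rw [h2 z]
    exact prod_unique (i := 2) (by omega) (eig_of h1) fun y => (1 - y * z)
  have hS := size_plain (((2 : ℕ) : ℝ) / 2) (de X d b₁ b₂ W e g₁ g₂) B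
    (hg.mono fun v hv => ⟨⟨hv.1.norm, hv.1.im hd he⟩, hv.2⟩) (by
      rw [half_two]
      exact hB.2)
  have hS0 := size_plain (((2 : ℕ) : ℝ) / 2) (alp X d 2 b₂ K) B₀
    (hg0.mono fun v hv => ⟨⟨fun j => hv.1.norm j, hv.1.im (by omega)⟩, hv.2⟩) (by
      rw [half_two]
      exact h₀.2)
  have hSD := size_plain (((2 : ℕ) : ℝ) / 2) (alp W e 2 g₂ K) D
    (hgD.mono fun v hv => ⟨⟨fun j => hv.1.norm j, hv.1.im (by omega)⟩, hv.2⟩) (by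
      rw [half_two]
      exact hD.2)
  rw [half_two] at hS hS0 hSD
  refine ⟨hS.1, hS0.1, hSD.1, ?_⟩
  have hN : NormSys (nm K) := normSys
  -- the difference of the traces
  set T2 : HeightOneSpectrum (𝓞 K) → ℝ := fun v => tF X d 1 b₁ K v * tF W e 1 g₁ K v with hT2
  set φ : HeightOneSpectrum (𝓞 K) → ℝ := fun v =>
    tr (((2 : ℕ) : ℝ) / 2) (de X d b₁ b₂ W e g₁ g₂) v -
    (tF X d 2 b₂ K v + (tF W e 2 g₂ K v + T2 v)) with hφ
  have hb1 : ∀ v, |tF X d 2 b₂ K v| ≤ (b₂ : ℝ) := fun v => abs_tr_le _ _ _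
  have hb1' : ∀ v, |tF W e 2 g₂ K v| ≤ (g₂ : ℝ) := fun v => abs_tr_le _ _ _
  have hb2 : ∀ v, |T2 v| ≤ (b₁ : ℝ) * g₁ := by
    intro v
    rw [hT2]
    simp only
    rw [abs_mul]
    exact mul_le_mul (abs_tr_le _ _ _) (abs_tr_le _ _ _) (abs_nonneg _) (Nat.cast_nonneg _)
  have hb3 : ∀ v, |tr (((2 : ℕ) : ℝ) / 2) (de X d b₁ b₂ W e g₁ g₂) v| ≤
      (((b₂ + g₂) + b₁ * g₁ : ℕ) : ℝ) := fun v => abs_tr_le _ _ _
  have hb5 : ∀ v, |tF W e 2 g₂ K v + T2 v| ≤ (g₂ : ℝ) + (b₁ : ℝ) * g₁ := fun v =>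
    (abs_add_le _ _).trans (add_le_add (hb1' v) (hb2 v))
  have hb6 : ∀ v, |tF X d 2 b₂ K v + (tF W e 2 g₂ K v + T2 v)| ≤
      (b₂ : ℝ) + ((g₂ : ℝ) + (b₁ : ℝ) * g₁) := fun v =>
    (abs_add_le _ _).trans (add_le_add (hb1 v) (hb5 v))
  have hb7 : ∀ v, |(-1) * (tF X d 2 b₂ K v + (tF W e 2 g₂ K v + T2 v))| ≤
      (b₂ : ℝ) + ((g₂ : ℝ) + (b₁ : ℝ) * g₁) := fun v => by
    rw [abs_mul, abs_neg, abs_one, one_mul]
    exact hb6 v
  have hφ2 : ∀ v, φ v = tr (((2 : ℕ) : ℝ) / 2) (de X d b₁ b₂ W e g₁ g₂) v +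
      (-1) * (tF X d 2 b₂ K v + (tF W e 2 g₂ K v + T2 v)) := by
    intro v
    rw [hφ]
    ring
  have hφb : ∀ v, |φ v| ≤ (((b₂ + g₂) + b₁ * g₁ : ℕ) : ℝ) +
      ((b₂ : ℝ) + ((g₂ : ℝ) + (b₁ : ℝ) * g₁)) := by
    intro v
    rw [hφ2]
    exact (abs_add_le _ _).trans (add_le_add (hb3 v) (hb7 v))
  have hφ0 := EP_fin hφb (hg.mono fun v hv => by
    rw [hφ]
    simp only
    rw [hv.1.trace hd he, hT2]
    ring)
  have h1 := ((hS.2.sub hS0.2).sub hSD.2).sub hφ0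
  have e0 : (0 : ℝ) - 0 - 0 - 0 = 0 := by norm_num
  rw [e0] at h1
  refine h1.congr' ?_
  filter_upwards [self_mem_nhdsWithin] with ε hε
  have hε' : (0 : ℝ) < ε := hε
  have e1 : EP (nm K) ε φ =
      (EP (nm K) ε fun v => tr (((2 : ℕ) : ℝ) / 2) (de X d b₁ b₂ W e g₁ g₂) v) -
      ((EP (nm K) ε fun v => tF X d 2 b₂ K v) + ((EP (nm K) ε fun v => tF W e 2 g₂ K v) +
        EP (nm K) ε T2)) := by
    have e2 : EP (nm K) ε φ = EP (nm K) ε (fun v =>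
      tr (((2 : ℕ) : ℝ) / 2) (de X d b₁ b₂ W e g₁ g₂) v +
      (-1) * (tF X d 2 b₂ K v + (tF W e 2 g₂ K v + T2 v))) := by
      congr 1
      funext v
      exact hφ2 v
    rw [e2, EP_add hN hε' hb3 hb7, EP_const_mul, EP_add hN hε' hb1 hb5,
      EP_add hN hε' hb1' hb2]
    ring
  have e3 : (EP (nm K) ε fun v => tF X d 2 b₂ K v) =
    EP (nm K) ε fun v => tr (((2 : ℕ) : ℝ) / 2) (alp X d 2 b₂ K) v := rfl
  have e4 : (EP (nm K) ε fun v => tF W e 2 g₂ K v) =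
    EP (nm K) ε fun v => tr (((2 : ℕ) : ℝ) / 2) (alp W e 2 g₂ K) v := rfl
  unfold size
  rw [e1, e3, e4]
  ring

end

end Pool.Agent.K7.H53.MV
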