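import Pool.Agent.K7.H53.MV.Link

/-! The pole of `L₂` at `s = 2` for products with varieties whose first cohomology is modular. -/

set_option autoImplicit false

namespace Pool.Agent.K7.H53.MV

open Complex Filter Topology NumberField IsDedekindDomain Polynomial
open Pool.Agent.W540.BE Pool.Agent.W353.L1 Pool.Agent.W401.Cheb
open Pool.Agent.H341R2 (lam lam_tendsto sysK)
open Pool.Agent.W353.PV (Eig alp tF pick_spec lim_ord)
open Pool.Agent.W353.EF (IsFrobenius LFun size HasOrder IsEulerSystem)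
open Pool.Agent.Y722.EP
open Pool.Agent.Y722.RS (rc tt rc_eq)
open Pool.Agent.H921R2.TatePole (kerPrime C0)
open Pool.Agent.W353.TP (HX sysH EH_eq E_H)
open Pool.Agent.W353.NF (EP_eq)

section
variable {κ : Type} (F : Eigenforms κ)

theorem sysF (J : Finset κ) : Sys J fun k (p : Nat.Primes) => tt (F.f k) p := by
  refine ⟨fun k _ p => ?_, fun k _ => ?_, fun k _ l _ hkl => ?_⟩
  · have := F.pos k
    exact Pool.Agent.Y722.RS.tt_le (F.hecke k) p.2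
  · have := F.pos k
    exact Pool.Agent.Y722.RS.self_le (F.hecke k)
  · have := F.pos k
    have := F.pos l
    obtain ⟨p, hp, h1, h2, h3⟩ := F.ne k l hkl
    refine Pool.Agent.Y722.RS.cross_le (F.hecke k) (F.hecke l) hp h1 h2 fun h => h3 ?_
    rw [rc_eq (F.hecke k).real, rc_eq (F.hecke l).real, h]

open Classical in
/-- the normalised eigenvalue at the primes of degree one -/
noncomputable def RR (K : Type) [Field K] [NumberField K] (k : κ)
    (v : HeightOneSpectrum (𝓞 K)) : ℝ :=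
  if (nm K v).Prime then tt (F.f k) (nm K v) else 0

variable {K : Type} [Field K] [NumberField K]

theorem RR_le (k : κ) (v : HeightOneSpectrum (𝓞 K)) : |RR F K k v| ≤ 2 := by
  unfold RR
  split_ifs with h
  · have := F.pos k
    exact Pool.Agent.Y722.RS.tt_le (F.hecke k) h
  · rw [abs_zero]
    norm_num

theorem linkedF (J : Finset κ) :
    Linked J (fun k (p : Nat.Primes) => tt (F.f k) p) (RR F K) := by
  refine ⟨fun k _ v => RR_le F k v, ∅, fun k _ p _ u => ?_⟩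
  have hn : nm K (kerPrime p u).1.1 = (p : ℕ) := Pool.Agent.H341R2.nm_kerPrime p u
  unfold RR
  rw [hn, if_pos p.2]

/-- functions that vanish at almost all primes of degree one -/
theorem EP_deg {φ : HeightOneSpectrum (𝓞 K) → ℝ} {B : ℝ} (hb : ∀ v, |φ v| ≤ B)
    (h : ∀ᶠ v in cofinite, (nm K v).Prime → φ v = 0) :
    Tendsto (fun ε : ℝ => EP (nm K) ε φ / lam ε) (𝓝[>] 0) (𝓝 0) := by
  classical
  have hN : NormSys (nm K) := normSys
  have hB : 0 ≤ B ∨ IsEmpty (HeightOneSpectrum (𝓞 K)) := by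
    by_cases hne : Nonempty (HeightOneSpectrum (𝓞 K))
    · obtain ⟨v⟩ := hne
      exact Or.inl ((abs_nonneg _).trans (hb v))
    · exact Or.inr (not_nonempty_iff.1 hne)
  have hB0 : (0 : ℝ) ≤ |B| := abs_nonneg B
  have hb' : ∀ v, |φ v| ≤ |B| := fun v => (hb v).trans (le_abs_self B)
  set φ1 : HeightOneSpectrum (𝓞 K) → ℝ := fun v => if (nm K v).Prime then φ v else 0 with h1
  set φ2 : HeightOneSpectrum (𝓞 K) → ℝ := fun v => if (nm K v).Prime then 0 else φ v with h2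
  have hb1 : ∀ v, |φ1 v| ≤ |B| := by
    intro v
    rw [h1]
    simp only
    split_ifs
    · exact hb' v
    · rw [abs_zero]; exact hB0
  have hb2 : ∀ v, |φ2 v| ≤ |B| := by
    intro v
    rw [h2]
    simp only
    split_ifs
    · rw [abs_zero]; exact hB0
    · exact hb' v
  have t1 := EP_fin hb1 (h.mono fun v hv => by
    rw [h1]
    simp only
    split_ifs with hp
    · exact hv hp
    · rfl)
  have t2 : Tendsto (fun ε : ℝ => EP (nm K) ε φ2 / lam ε) (𝓝[>] 0) (𝓝 0) := by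
    have hbd : ∀ ε : ℝ, 0 < ε → |EP (nm K) ε φ2| ≤ |B| * Module.finrank ℚ K * C0 := by
      intro ε hε
      have h3 := E_H hb2 hε
      have e : (fun x : HX K => φ2 (kerPrime x.1 x.2).1.1) = fun _ => 0 := by
        funext x
        have hn : nm K (kerPrime x.1 x.2).1.1 = (x.1 : ℕ) :=
          Pool.Agent.H341R2.nm_kerPrime x.1 x.2
        rw [h2]
        simp only
        rw [hn, if_pos x.1.2]
      rw [e, EH_eq hε (B := 0) (fun x => by simp)] at h3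
      rw [EP_eq]
      have e2 : (Pool.Agent.H341R2.E ε fun p : Nat.Primes =>
          ∑ u : 𝓞 K →+* ZMod (p : ℕ), (0 : ℝ)) = 0 := by
        unfold Pool.Agent.H341R2.E
        simp
      rw [e2, sub_zero] at h3
      exact h3
    rw [tendsto_zero_iff_abs_tendsto_zero]
    have h3 : Tendsto (fun ε : ℝ => (|B| * Module.finrank ℚ K * C0 : ℝ) / lam ε) (𝓝[>] 0) (𝓝 0) :=
      tendsto_const_nhds.div_atTop lam_tendsto
    refine squeeze_zero' (Eventually.of_forall fun ε => abs_nonneg _) ?_ h3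
    filter_upwards [self_mem_nhdsWithin, lam_tendsto.eventually_gt_atTop 0] with ε hε hε'
    rw [Function.comp_apply, abs_div, abs_of_pos hε']
    exact div_le_div_of_nonneg_right (hbd ε hε) hε'.le
  have t3 := t1.add t2
  rw [add_zero] at t3
  refine t3.congr' ?_
  filter_upwards [self_mem_nhdsWithin] with ε hε
  have hε' : (0 : ℝ) < ε := hε
  have e : EP (nm K) ε φ = EP (nm K) ε φ1 + EP (nm K) ε φ2 := by
    rw [← EP_add hN hε' hb1 hb2]
    congr 1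
    funext v
    rw [h1, h2]
    simp only
    split_ifs <;> simp
  rw [e, add_div]

end

section
variable {K : Type} [Field K] [NumberField K] {n : ℕ} {X : Set (MvPolynomial (Fin n) (𝓞 K))}
  {d b₁ b₂ : ℕ} {κ : Type} {F : Eigenforms κ}

/-- the size of `L(H¹(Y) ⊗ ρ_k)` -/
noncomputable def yy (F : Eigenforms κ) (X : Set (MvPolynomial (Fin n) (𝓞 K))) (d b₁ : ℕ) (k : κ)
    (ε : ℝ) : ℝ := (EP (nm K) ε fun v => tF X d 1 b₁ K v * RR F K k v) / lam ε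

/-- the trace at the primes of degree one -/
theorem tF_modular {Z : Var K} {μ : κ →₀ ℕ} (hμ : IsModular F Z.W Z.e Z.g₁ μ) :
    ∀ᶠ v : HeightOneSpectrum (𝓞 K) in cofinite, (nm K v).Prime →
      tF Z.W Z.e 1 Z.g₁ K v = ∑ k ∈ μ.support, (μ k : ℝ) * RR F K k v := by
  have he := Z.he
  refine hμ.mono fun v hv hp => ?_
  obtain ⟨β, h1, h2⟩ := hv hp
  have g3 : Eig Z.W Z.e 1 v (alp Z.W Z.e 1 Z.g₁ K v) := pick_spec ⟨β, h1⟩
  have hq : (0 : ℝ) < nm K v := by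
    have := two_le_nm v
    exact_mod_cast (by omega : 0 < nm K v)
  have hsum : ∑ j, alp Z.W Z.e 1 Z.g₁ K v j = ∑ j, β j := by
    have h4 := congrArg Multiset.sum (g3.unique' (i := 1) (by omega) h1)
    exact h4
  have hre : (∑ j, β j).re = ∑ k ∈ μ.support, (μ k : ℝ) * rc (F.f k) (nm K v) := by
    rw [h2, Complex.re_sum]
    refine Finset.sum_congr rfl fun k _ => ?_
    rw [rc_eq (F.hecke k).real]
    have e : ((μ k : ℂ) * ((rc (F.f k) (Ideal.absNorm v.asIdeal) : ℝ) : ℂ)) =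
        (((μ k : ℝ) * rc (F.f k) (nm K v) : ℝ) : ℂ) := by
      push_cast
      rfl
    rw [e, Complex.ofReal_re]
  unfold tF tr
  rw [if_pos ⟨fun j => g3.norm j, g3.im (by omega)⟩, hsum, hre, Real.rpow_neg hq.le, nm_h,
    Finset.sum_mul]
  refine Finset.sum_congr rfl fun k _ => ?_
  unfold RR tt
  rw [if_pos hp]
  rw [div_eq_mul_inv]
  ring

/-- the size of `L(H¹(Y) ⊗ H¹(Z))` is a combination of the sizes of the `L(H¹(Y) ⊗ ρ_k)` -/
theorem x_lim (hd : 1 ≤ d) {Z : Var K} {μ : κ →₀ ℕ} (hμ : IsModular F Z.W Z.e Z.g₁ μ)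
    {B₀ D B : HeightOneSpectrum (𝓞 K) → ℂ[X]} (h₀ : IsEulerSystem X d 2 b₂ B₀)
    (hD : IsEulerSystem Z.W Z.e 2 Z.g₂ D)
    (hB : IsProductSystem X d b₁ b₂ Z.W Z.e Z.g₁ Z.g₂ B) :
    Tendsto (fun ε : ℝ => size 2 B ε - size 2 B₀ ε - size 2 D ε -
      ∑ k ∈ μ.support, (μ k : ℝ) * yy F X d b₁ k ε) (𝓝[>] 0) (𝓝 0) := by
  have hN : NormSys (nm K) := normSys
  have h1 := (link hd Z.he h₀ hD hB).2.2.2
  set φ : HeightOneSpectrum (𝓞 K) → ℝ := fun v => tF X d 1 b₁ K v * tF Z.W Z.e 1 Z.g₁ K v +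
    ∑ k ∈ μ.support, (-(μ k : ℝ)) * (tF X d 1 b₁ K v * RR F K k v) with hφ
  have hb0 : ∀ v, |tF X d 1 b₁ K v * tF Z.W Z.e 1 Z.g₁ K v| ≤ (b₁ : ℝ) * Z.g₁ := by
    intro v
    rw [abs_mul]
    exact mul_le_mul (abs_tr_le _ _ _) (abs_tr_le _ _ _) (abs_nonneg _) (Nat.cast_nonneg _)
  have hb1 : ∀ k ∈ μ.support, ∀ v, |(-(μ k : ℝ)) * (tF X d 1 b₁ K v * RR F K k v)| ≤
      (μ k : ℝ) * ((b₁ : ℝ) * 2) := by
    intro k _ v
    rw [abs_mul, abs_neg, abs_of_nonneg (Nat.cast_nonneg (μ k) : (0 : ℝ) ≤ μ k), abs_mul]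
    refine mul_le_mul_of_nonneg_left ?_ (Nat.cast_nonneg _)
    exact mul_le_mul (abs_tr_le _ _ _) (RR_le F k v) (abs_nonneg _) (Nat.cast_nonneg _)
  have hb2 : ∀ v, |∑ k ∈ μ.support, (-(μ k : ℝ)) * (tF X d 1 b₁ K v * RR F K k v)| ≤
      ∑ k ∈ μ.support, (μ k : ℝ) * ((b₁ : ℝ) * 2) := fun v =>
    (Finset.abs_sum_le_sum_abs _ _).trans (Finset.sum_le_sum fun k hk => hb1 k hk v)
  have hb3 : ∀ v, |φ v| ≤ (b₁ : ℝ) * Z.g₁ + ∑ k ∈ μ.support, (μ k : ℝ) * ((b₁ : ℝ) * 2) :=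
    fun v => (abs_add_le _ _).trans (add_le_add (hb0 v) (hb2 v))
  have h2 := EP_deg hb3 ((tF_modular hμ).mono fun v hv hp => by
    rw [hφ]
    simp only
    rw [hv hp, Finset.mul_sum, ← Finset.sum_add_distrib]
    exact Finset.sum_eq_zero fun k _ => by ring)
  have h3 := h2.sub h1
  rw [sub_zero] at h3
  refine h3.congr' ?_
  filter_upwards [self_mem_nhdsWithin] with ε hε
  have hε' : (0 : ℝ) < ε := hε
  have e1 : EP (nm K) ε φ = (EP (nm K) ε fun v => tF X d 1 b₁ K v * tF Z.W Z.e 1 Z.g₁ K v) +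
      ∑ k ∈ μ.support, (-(μ k : ℝ)) * EP (nm K) ε fun v => tF X d 1 b₁ K v * RR F K k v := by
    rw [hφ, EP_add hN hε' hb0 hb2, EP_sum hN hε' μ.support
      (fun k v => (-(μ k : ℝ)) * (tF X d 1 b₁ K v * RR F K k v))
      (fun k => (μ k : ℝ) * ((b₁ : ℝ) * 2)) hb1]
    congr 1
    exact Finset.sum_congr rfl fun k _ => EP_const_mul _ _
  have e2 : ∑ k ∈ μ.support, (μ k : ℝ) * yy F X d b₁ k ε =
      (∑ k ∈ μ.support, (μ k : ℝ) * EP (nm K) ε fun v => tF X d 1 b₁ K v * RR F K k v) /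
        lam ε := by
    unfold yy
    rw [Finset.sum_div]
    exact Finset.sum_congr rfl fun k _ => by ring
  have e3 : ∑ k ∈ μ.support, (-(μ k : ℝ)) * (EP (nm K) ε fun v =>
      tF X d 1 b₁ K v * RR F K k v) = -∑ k ∈ μ.support, (μ k : ℝ) * EP (nm K) ε fun v =>
      tF X d 1 b₁ K v * RR F K k v := by
    rw [← Finset.sum_neg_distrib]
    exact Finset.sum_congr rfl fun k _ => by ring
  rw [e2, e1, e3]
  ring

/-- the bounds for the sizes -/
theorem yy_bounds (J : Finset κ) {η : ℝ} (hη : 0 < η) :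
    (∀ᶠ ε : ℝ in 𝓝[>] 0, ∑ k ∈ J, (max (yy F X d b₁ k ε) 0) ^ 2 ≤
      (b₁ : ℝ) ^ 2 * Module.finrank ℚ K + η) ∧
    (∀ᶠ ε : ℝ in 𝓝[>] 0, ∑ k ∈ J, (max (-yy F X d b₁ k ε) 0) ^ 2 ≤
      (b₁ : ℝ) ^ 2 * Module.finrank ℚ K + η) := by
  have hT : ∀ v, |tF X d 1 b₁ K v| ≤ (b₁ : ℝ) := fun v => abs_tr_le _ _ _
  refine ⟨bessel_pos (sysF F J) (linkedF F J) (Nat.cast_nonneg _) hT (x := yy F X d b₁)
    (fun k _ => ?_) hη, ?_⟩
  · unfold yy
    simp
  refine bessel_pos (sysF F J) (linkedF F J) (Nat.cast_nonneg _) (T := fun v => -tF X d 1 b₁ K v)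
    (fun v => by rw [abs_neg]; exact hT v) (x := fun k ε => -yy F X d b₁ k ε) (fun k _ => ?_) hη
  refine tendsto_const_nhds.congr fun ε => ?_
  have e : (EP (nm K) ε fun v => -tF X d 1 b₁ K v * RR F K k v) =
      -(EP (nm K) ε fun v => tF X d 1 b₁ K v * RR F K k v) := by
    rw [← neg_one_mul (EP (nm K) ε fun v => tF X d 1 b₁ K v * RR F K k v), ← EP_const_mul]
    congr 1
    funext v
    ring
  rw [e]
  unfold yy
  ring

/-- **The sizes.** -/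
theorem main_size (hd : 1 ≤ d) {ι : Type} (Z : ι → Var K) (μ : ι → κ →₀ ℕ)
    (hμ : ∀ i, IsModular F (Z i).W (Z i).e (Z i).g₁ (μ i))
    {B₀ : HeightOneSpectrum (𝓞 K) → ℂ[X]} {D B : ι → HeightOneSpectrum (𝓞 K) → ℂ[X]}
    (h₀ : IsEulerSystem X d 2 b₂ B₀) (hD : ∀ i, IsEulerSystem (Z i).W (Z i).e 2 (Z i).g₂ (D i))
    (hB : ∀ i, IsProductSystem X d b₁ b₂ (Z i).W (Z i).e (Z i).g₁ (Z i).g₂ (B i))
    (I : Finset ι) {η : ℝ} (hη : 0 < η) : ∀ᶠ ε : ℝ in 𝓝[>] 0,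
      ∃ y : κ → ℝ, Bounded y ((b₁ : ℝ) ^ 2 * Module.finrank ℚ K + η) ∧
        ∀ i ∈ I, LFun (B i) (((2 : ℕ) : ℂ) / 2 + 1 + ε) ≠ 0 ∧
          LFun B₀ (((2 : ℕ) : ℂ) / 2 + 1 + ε) ≠ 0 ∧
          LFun (D i) (((2 : ℕ) : ℂ) / 2 + 1 + ε) ≠ 0 ∧
          |size 2 (B i) ε - size 2 B₀ ε - size 2 (D i) ε -
            ∑ k ∈ (μ i).support, (μ i k : ℝ) * y k| ≤ η := by
  classical
  set J : Finset κ := I.biUnion fun i => (μ i).support with hJ
  obtain ⟨h1, h2⟩ := yy_bounds (F := F) (X := X) (d := d) (b₁ := b₁) J hη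
  have h3 : ∀ᶠ ε : ℝ in 𝓝[>] 0, ∀ i ∈ I, LFun (B i) (((2 : ℕ) : ℂ) / 2 + 1 + ε) ≠ 0 ∧
      LFun B₀ (((2 : ℕ) : ℂ) / 2 + 1 + ε) ≠ 0 ∧
      LFun (D i) (((2 : ℕ) : ℂ) / 2 + 1 + ε) ≠ 0 ∧
      |size 2 (B i) ε - size 2 B₀ ε - size 2 (D i) ε -
        ∑ k ∈ (μ i).support, (μ i k : ℝ) * yy F X d b₁ k ε| ≤ η := by
    rw [Filter.eventually_all_finset]
    intro i _
    have l := link hd (Z i).he h₀ (hD i) (hB i)
    have h4 := (Metric.tendsto_nhds.1 (x_lim hd (hμ i) h₀ (hD i) (hB i))) η hη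
    filter_upwards [l.1, l.2.1, l.2.2.1, h4] with ε a1 a2 a3 a4
    rw [Real.dist_eq, sub_zero] at a4
    exact ⟨a1, a2, a3, a4.le⟩
  filter_upwards [h1, h2, h3] with ε a1 a2 a3
  have hR : 0 ≤ (b₁ : ℝ) ^ 2 * Module.finrank ℚ K + η := by positivity
  refine ⟨fun k => if k ∈ J then yy F X d b₁ k ε else 0, fun J' => ⟨?_, ?_⟩, fun i hi => ?_⟩
  · refine le_trans ?_ a1
    calc _ = ∑ k ∈ J', if k ∈ J then (max (yy F X d b₁ k ε) 0) ^ 2 else 0 := by
          refine Finset.sum_congr rfl fun k _ => ?_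
          beta_reduce
          by_cases hk : k ∈ J
          · rw [if_pos hk, if_pos hk]
          · rw [if_neg hk, if_neg hk]; simp
      _ = ∑ k ∈ J' ∩ J, (max (yy F X d b₁ k ε) 0) ^ 2 := by
          rw [Finset.sum_ite_mem]
      _ ≤ _ := Finset.sum_le_sum_of_subset_of_nonneg Finset.inter_subset_right
          fun _ _ _ => sq_nonneg _
  · refine le_trans ?_ a2
    calc _ = ∑ k ∈ J', if k ∈ J then (max (-yy F X d b₁ k ε) 0) ^ 2 else 0 := by
          refine Finset.sum_congr rfl fun k _ => ?_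
          beta_reduce
          by_cases hk : k ∈ J
          · rw [if_pos hk, if_pos hk]
          · rw [if_neg hk, if_neg hk]; simp
      _ = ∑ k ∈ J' ∩ J, (max (-yy F X d b₁ k ε) 0) ^ 2 := by
          rw [Finset.sum_ite_mem]
      _ ≤ _ := Finset.sum_le_sum_of_subset_of_nonneg Finset.inter_subset_right
          fun _ _ _ => sq_nonneg _
  · obtain ⟨q1, q2, q3, q4⟩ := a3 i hi
    refine ⟨q1, q2, q3, ?_⟩
    have e : ∑ k ∈ (μ i).support, (μ i k : ℝ) * (if k ∈ J then yy F X d b₁ k ε else 0) =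
        ∑ k ∈ (μ i).support, (μ i k : ℝ) * yy F X d b₁ k ε := by
      refine Finset.sum_congr rfl fun k hk => ?_
      rw [if_pos]
      rw [hJ, Finset.mem_biUnion]
      exact ⟨i, hi, hk⟩
    rw [e]
    exact q4

/-- the limit of a size -/
theorem size_lim {B : HeightOneSpectrum (𝓞 K) → ℂ[X]} {r : ℤ} (hr : HasOrder 2 B (-r))
    (hne : ∀ᶠ ε : ℝ in 𝓝[>] 0, LFun B (((2 : ℕ) : ℂ) / 2 + 1 + ε) ≠ 0) :
    Tendsto (size 2 B) (𝓝[>] 0) (𝓝 (r : ℝ)) := by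
  have e0 : (((2 : ℕ) : ℂ) / 2 + 1).re = ((2 : ℕ) : ℝ) / 2 + 1 := by
    norm_num
  obtain ⟨Λ, h1, h2, h3⟩ := hr
  have l1 := lim_ord hne h1 (h2.mono fun s hs hs' => hs (by rw [e0] at hs'; exact hs')) h3
  refine (l1.congr fun ε => rfl).trans (le_of_eq ?_)
  congr 1
  push_cast
  ring

/-- **The orders of the poles.** -/
theorem main_order (hd : 1 ≤ d) {ι : Type} (Z : ι → Var K) (μ : ι → κ →₀ ℕ)
    (hμ : ∀ i, IsModular F (Z i).W (Z i).e (Z i).g₁ (μ i))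
    {B₀ : HeightOneSpectrum (𝓞 K) → ℂ[X]} {D B : ι → HeightOneSpectrum (𝓞 K) → ℂ[X]}
    (h₀ : IsEulerSystem X d 2 b₂ B₀) (hD : ∀ i, IsEulerSystem (Z i).W (Z i).e 2 (Z i).g₂ (D i))
    (hB : ∀ i, IsProductSystem X d b₁ b₂ (Z i).W (Z i).e (Z i).g₁ (Z i).g₂ (B i))
    {r₀ : ℤ} {s r : ι → ℤ} (hr₀ : HasOrder 2 B₀ (-r₀)) (hs : ∀ i, HasOrder 2 (D i) (-s i))
    (hr : ∀ i, HasOrder 2 (B i) (-r i)) :
    ∃ y : κ → ℝ, Bounded y ((b₁ : ℝ) ^ 2 * Module.finrank ℚ K) ∧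
      ∀ i, (r i : ℝ) - r₀ - s i = ∑ k ∈ (μ i).support, (μ i k : ℝ) * y k := by
  classical
  set R : ℝ := (b₁ : ℝ) ^ 2 * Module.finrank ℚ K with hR
  have hR0 : 0 ≤ R := by positivity
  set U : Ultrafilter ℝ := Ultrafilter.of (𝓝[>] (0 : ℝ)) with hU
  have hUle : (U : Filter ℝ) ≤ 𝓝[>] 0 := Ultrafilter.of_le _
  have hex : ∀ k : κ, ∃ L : ℝ, Tendsto (yy F X d b₁ k) U (𝓝 L) := by
    intro k
    obtain ⟨h1, h2⟩ := yy_bounds (F := F) (X := X) (d := d) (b₁ := b₁) {k} one_pos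
    have h3 : ∀ᶠ ε : ℝ in 𝓝[>] 0, yy F X d b₁ k ε ∈ Set.Icc (-Real.sqrt (R + 1)) (Real.sqrt (R + 1)) := by
      filter_upwards [h1, h2] with ε a1 a2
      rw [Finset.sum_singleton] at a1 a2
      have b1 := Real.le_sqrt_of_sq_le a1
      have b2 := Real.le_sqrt_of_sq_le a2
      have c1 := le_max_left (yy F X d b₁ k ε) 0
      have c2 := le_max_left (-yy F X d b₁ k ε) 0
      exact ⟨by linarith, by linarith⟩
    obtain ⟨L, -, hL⟩ := isCompact_Icc.ultrafilter_le_nhds (U.map (yy F X d b₁ k)) (by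
      rw [Filter.le_principal_iff, Ultrafilter.mem_coe, Ultrafilter.mem_map]
      exact hUle h3)
    exact ⟨L, hL⟩
  choose y hy using hex
  refine ⟨y, fun J => ⟨?_, ?_⟩, fun i => ?_⟩
  · refine le_of_forall_pos_le_add fun η hη => ?_
    have hcont : Continuous fun x : ℝ => (max x 0) ^ 2 := by fun_prop
    have h1 : Tendsto (fun ε => ∑ k ∈ J, (max (yy F X d b₁ k ε) 0) ^ 2) U
        (𝓝 (∑ k ∈ J, (max (y k) 0) ^ 2)) :=
      tendsto_finsetSum J fun k _ => (hcont.tendsto _).comp (hy k)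
    exact le_of_tendsto h1 (hUle (yy_bounds (F := F) J hη).1)
  · refine le_of_forall_pos_le_add fun η hη => ?_
    have hcont : Continuous fun x : ℝ => (max (-x) 0) ^ 2 := by fun_prop
    have h1 : Tendsto (fun ε => ∑ k ∈ J, (max (-yy F X d b₁ k ε) 0) ^ 2) U
        (𝓝 (∑ k ∈ J, (max (-y k) 0) ^ 2)) :=
      tendsto_finsetSum J fun k _ => (hcont.tendsto _).comp (hy k)
    exact le_of_tendsto h1 (hUle (yy_bounds (F := F) J hη).2)
  · have l := link hd (Z i).he h₀ (hD i) (hB i)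
    have h1 := ((size_lim (hr i) l.1).sub (size_lim hr₀ l.2.1)).sub (size_lim (hs i) l.2.2.1)
    have h2 := (x_lim hd (hμ i) h₀ (hD i) (hB i)).mono_left hUle
    have h3 : Tendsto (fun ε => ∑ k ∈ (μ i).support, (μ i k : ℝ) * yy F X d b₁ k ε) U
        (𝓝 (∑ k ∈ (μ i).support, (μ i k : ℝ) * y k)) :=
      tendsto_finsetSum _ fun k _ => (hy k).const_mul _
    have h4 := h2.add h3
    rw [zero_add] at h4
    have h5 : Tendsto (fun ε => size 2 (B i) ε - size 2 B₀ ε - size 2 (D i) ε) U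
        (𝓝 (∑ k ∈ (μ i).support, (μ i k : ℝ) * y k)) := h4.congr fun ε => by ring
    exact tendsto_nhds_unique (h1.mono_left hUle) h5

end

section
variable {κ : Type}

/-- Cauchy's inequality for the positive parts -/
theorem pos_le {y : κ → ℝ} (J : Finset κ) (m : κ → ℕ) :
    (max (∑ k ∈ J, (m k : ℝ) * y k) 0) ^ 2 ≤
      (∑ k ∈ J, (m k : ℝ) ^ 2) * ∑ k ∈ J, (max (y k) 0) ^ 2 := by
  have h1 : max (∑ k ∈ J, (m k : ℝ) * y k) 0 ≤ ∑ k ∈ J, (m k : ℝ) * max (y k) 0 := by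
    refine max_le (Finset.sum_le_sum fun k _ => ?_) (Finset.sum_nonneg fun k _ => ?_)
    · exact mul_le_mul_of_nonneg_left (le_max_left _ _) (Nat.cast_nonneg _)
    · exact mul_nonneg (Nat.cast_nonneg _) (le_max_right _ _)
  calc _ ≤ (∑ k ∈ J, (m k : ℝ) * max (y k) 0) ^ 2 :=
        pow_le_pow_left₀ (le_max_right _ _) h1 2
    _ ≤ _ := Finset.sum_mul_sq_le_sq_mul_sq _ _ _

/-- the number of the members with a defect -/
theorem card_pos {ι : Type} (μ : ι → κ →₀ ℕ)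
    (hdis : ∀ i j, i ≠ j → Disjoint (μ i).support (μ j).support) {R : ℝ} {y : κ → ℝ}
    (hy : ∀ J : Finset κ, ∑ k ∈ J, (max (y k) 0) ^ 2 ≤ R) {t : ι → ℤ}
    (ht : ∀ i, (t i : ℝ) = ∑ k ∈ (μ i).support, (μ i k : ℝ) * y k) (G : ℕ) (J : Finset ι)
    (hJ : ∀ i ∈ J, 0 < t i ∧ ∑ k ∈ (μ i).support, (μ i k) ^ 2 ≤ G) : (J.card : ℝ) ≤ G * R := by
  classical
  have h1 : ∀ i ∈ J, (1 : ℝ) ≤ G * ∑ k ∈ (μ i).support, (max (y k) 0) ^ 2 := by
    intro i hi
    obtain ⟨a1, a2⟩ := hJ i hi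
    have a3 : (1 : ℝ) ≤ t i := by exact_mod_cast a1
    have a4 := pos_le (y := y) (μ i).support (μ i)
    rw [← ht i] at a4
    have a5 : (1 : ℝ) ≤ (max (t i : ℝ) 0) ^ 2 := by
      rw [max_eq_left (by linarith)]
      nlinarith
    have a6 : (∑ k ∈ (μ i).support, (μ i k : ℝ) ^ 2) ≤ G := by exact_mod_cast a2
    have a7 : 0 ≤ ∑ k ∈ (μ i).support, (max (y k) 0) ^ 2 :=
      Finset.sum_nonneg fun _ _ => sq_nonneg _
    exact a5.trans (a4.trans (mul_le_mul_of_nonneg_right a6 a7))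
  have h2 : ∑ i ∈ J, ∑ k ∈ (μ i).support, (max (y k) 0) ^ 2 =
      ∑ k ∈ J.biUnion fun i => (μ i).support, (max (y k) 0) ^ 2 := by
    rw [Finset.sum_biUnion]
    intro i _ j _ hij
    exact hdis i j hij
  calc (J.card : ℝ) = ∑ _i ∈ J, (1 : ℝ) := by simp
    _ ≤ ∑ i ∈ J, G * ∑ k ∈ (μ i).support, (max (y k) 0) ^ 2 := Finset.sum_le_sum h1
    _ = G * ∑ k ∈ J.biUnion fun i => (μ i).support, (max (y k) 0) ^ 2 := by
        rw [← Finset.mul_sum, h2]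
    _ ≤ G * R := mul_le_mul_of_nonneg_left (hy _) (Nat.cast_nonneg _)

/-- the sum of the squares of the positive defects -/
theorem sum_pos_le {ι : Type} (μ : ι → κ →₀ ℕ)
    (hdis : ∀ i j, i ≠ j → Disjoint (μ i).support (μ j).support) {R : ℝ} {y : κ → ℝ}
    (hy : ∀ J : Finset κ, ∑ k ∈ J, (max (y k) 0) ^ 2 ≤ R) {t : ι → ℝ}
    (ht : ∀ i, t i = ∑ k ∈ (μ i).support, (μ i k : ℝ) * y k) (J : Finset ι) :
    ∑ i ∈ J, (max (t i) 0) ^ 2 / (∑ k ∈ (μ i).support, (μ i k : ℝ) ^ 2) ≤ R := by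
  classical
  have h1 : ∀ i ∈ J, (max (t i) 0) ^ 2 / (∑ k ∈ (μ i).support, (μ i k : ℝ) ^ 2) ≤
      ∑ k ∈ (μ i).support, (max (y k) 0) ^ 2 := by
    intro i _
    have a4 := pos_le (y := y) (μ i).support (μ i)
    rw [← ht i] at a4
    have a7 : 0 ≤ ∑ k ∈ (μ i).support, (max (y k) 0) ^ 2 :=
      Finset.sum_nonneg fun _ _ => sq_nonneg _
    have a8 : 0 ≤ ∑ k ∈ (μ i).support, (μ i k : ℝ) ^ 2 :=
      Finset.sum_nonneg fun _ _ => sq_nonneg _
    rcases a8.eq_or_lt with h | h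
    · rw [← h, div_zero]
      exact a7
    · rw [div_le_iff₀ h, mul_comm]
      exact a4
  have h2 : ∑ i ∈ J, ∑ k ∈ (μ i).support, (max (y k) 0) ^ 2 =
      ∑ k ∈ J.biUnion fun i => (μ i).support, (max (y k) 0) ^ 2 := by
    rw [Finset.sum_biUnion]
    intro i _ j _ hij
    exact hdis i j hij
  calc _ ≤ ∑ i ∈ J, ∑ k ∈ (μ i).support, (max (y k) 0) ^ 2 := Finset.sum_le_sum h1
    _ = ∑ k ∈ J.biUnion fun i => (μ i).support, (max (y k) 0) ^ 2 := h2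
    _ ≤ R := hy _

/-- the sums of the squares of the defects -/
theorem sums_le {ι : Type} (μ : ι → κ →₀ ℕ)
    (hdis : ∀ i j, i ≠ j → Disjoint (μ i).support (μ j).support) {R : ℝ} {y : κ → ℝ}
    (hy : Bounded y R) {t : ι → ℝ}
    (ht : ∀ i, t i = ∑ k ∈ (μ i).support, (μ i k : ℝ) * y k) (J : Finset ι) :
    ∑ i ∈ J, (max (t i) 0) ^ 2 / (∑ k ∈ (μ i).support, (μ i k : ℝ) ^ 2) ≤ R ∧
    ∑ i ∈ J, (max (-t i) 0) ^ 2 / (∑ k ∈ (μ i).support, (μ i k : ℝ) ^ 2) ≤ R := by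
  refine ⟨sum_pos_le μ hdis (fun J => (hy J).1) ht J,
    sum_pos_le μ hdis (y := fun k => -y k) (t := fun i => -t i) (fun J => (hy J).2)
      (fun i => ?_) J⟩
  rw [ht i, ← Finset.sum_neg_distrib]
  exact Finset.sum_congr rfl fun k _ => by ring

theorem finite_of_card {ι : Type} {S : Set ι} {M : ℕ} (h : ∀ J : Finset ι, (J : Set ι) ⊆ S →
    J.card ≤ M) : S.Finite ∧ S.ncard ≤ M := by
  have hfin : S.Finite := by
    by_contra hinf
    obtain ⟨J, hJ, hc⟩ := Set.Infinite.exists_subset_card_eq hinf (M + 1)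
    have := h J hJ
    omega
  refine ⟨hfin, ?_⟩
  rw [Set.ncard_eq_toFinset_card _ hfin]
  exact h _ (by simp)

/-- **The exceptional members.** -/
theorem exceptions {ι : Type} (μ : ι → κ →₀ ℕ)
    (hdis : ∀ i j, i ≠ j → Disjoint (μ i).support (μ j).support) {R : ℕ} {y : κ → ℝ}
    (hy : Bounded y (R : ℝ)) {t : ι → ℤ}
    (ht : ∀ i, (t i : ℝ) = ∑ k ∈ (μ i).support, (μ i k : ℝ) * y k) (G : ℕ) :
    {i | 0 < t i ∧ ∑ k ∈ (μ i).support, (μ i k) ^ 2 ≤ G}.Finite ∧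
    {i | 0 < t i ∧ ∑ k ∈ (μ i).support, (μ i k) ^ 2 ≤ G}.ncard ≤ G * R ∧
    {i | t i < 0 ∧ ∑ k ∈ (μ i).support, (μ i k) ^ 2 ≤ G}.Finite ∧
    {i | t i < 0 ∧ ∑ k ∈ (μ i).support, (μ i k) ^ 2 ≤ G}.ncard ≤ G * R := by
  obtain ⟨f1, c1⟩ := finite_of_card (S := {i | 0 < t i ∧ ∑ k ∈ (μ i).support, (μ i k) ^ 2 ≤ G})
    (M := G * R) fun J hJ => by
      have := card_pos μ hdis (fun J => (hy J).1) ht G J fun i hi => hJ hi
      exact_mod_cast this
  obtain ⟨f2, c2⟩ := finite_of_card (S := {i | t i < 0 ∧ ∑ k ∈ (μ i).support, (μ i k) ^ 2 ≤ G})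
    (M := G * R) fun J hJ => by
      have := card_pos μ hdis (y := fun k => -y k) (t := fun i => -t i) (fun J => (hy J).2)
        (fun i => by
          push_cast
          rw [ht i, ← Finset.sum_neg_distrib]
          exact Finset.sum_congr rfl fun k _ => by ring) G J
        fun i hi => ⟨by have := (hJ hi).1; omega, (hJ hi).2⟩
      exact_mod_cast this
  exact ⟨f1, c1, f2, c2⟩

/-- the defects are small compared with the genus -/
theorem abs_le_of_bounded {y : κ → ℝ} {R : ℝ} (hy : Bounded y R) (J : Finset κ) (m : κ → ℕ) :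
    (∑ k ∈ J, (m k : ℝ) * y k) ^ 2 ≤ (∑ k ∈ J, (m k : ℝ) ^ 2) * R := by
  have hS : 0 ≤ ∑ k ∈ J, (m k : ℝ) ^ 2 := Finset.sum_nonneg fun _ _ => sq_nonneg _
  rcases le_total 0 (∑ k ∈ J, (m k : ℝ) * y k) with h | h
  · have h1 := pos_le (y := y) J m
    rw [max_eq_left h] at h1
    exact h1.trans (mul_le_mul_of_nonneg_left (hy J).1 hS)
  · have h1 := pos_le (y := fun k => -y k) J m
    have e : ∑ k ∈ J, (m k : ℝ) * -y k = -∑ k ∈ J, (m k : ℝ) * y k := by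
      rw [← Finset.sum_neg_distrib]
      exact Finset.sum_congr rfl fun k _ => by ring
    rw [e, max_eq_left (by linarith), neg_sq] at h1
    exact h1.trans (mul_le_mul_of_nonneg_left (hy J).2 hS)

end

end Pool.Agent.K7.H53.MV
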